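import Mathlib
import Pool.Agent.H852.QP.Hom
import Pool.Agent.H852.NB.Equi

set_option autoImplicit false

/-!
# Uniform fat points: `AH₂(d)` for ALL degrees `d`, for almost all multiplicities

For every `ε > 0` there are `N` and `C` such that for every `r ≥ N` which is not a perfect square
and every `M` with `C √r ≤ M ≤ exp ((log r) ^ 2 / 64)`: for all but at most `ε M` of the
multiplicities `m < M`, the scheme `m Y` of a general set `Y` of `r` points of the complex
projective plane is `AH₂(d)` for every `d`.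
-/

namespace Pool.Agent.Results.MP_8707bd_ag.MostMultiplicities

open MvPolynomial

/-- The ideal `I_Y ^ (m)` of the points `(Y i 0 : Y i 1 : 1)` with multiplicity `m`. -/
noncomputable def fat {r : ℕ} (Y : Fin r → Fin 2 → ℂ) (m : ℕ) : Ideal (MvPolynomial (Fin 3) ℂ) :=
  ⨅ i : Fin r, (Ideal.span ({X 0 - C (Y i 0) * X 2, X 1 - C (Y i 1) * X 2} :
    Set (MvPolynomial (Fin 3) ℂ))) ^ m

/-- The Hilbert function `H_{R/J}(d) = dim R_d - dim [J]_d`. -/
noncomputable def hilb (J : Ideal (MvPolynomial (Fin 3) ℂ)) (d : ℕ) : ℕ :=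
  Module.finrank ℂ ↥(homogeneousSubmodule (Fin 3) ℂ d) -
    Module.finrank ℂ ↥(homogeneousSubmodule (Fin 3) ℂ d ⊓ Submodule.restrictScalars ℂ J)

/-- For `r` general points `Y` (one nonempty open set for all degrees) the scheme `m Y` is
`AH₂(d)` for every degree `d`. -/
def AllDegrees (r m : ℕ) : Prop :=
  ∃ F : MvPolynomial (Fin r × Fin 2) ℂ, F ≠ 0 ∧ ∀ Y : Fin r → Fin 2 → ℂ,
    MvPolynomial.eval (fun ij : Fin r × Fin 2 => Y ij.1 ij.2) F ≠ 0 →
    ∀ d : ℕ, hilb (fat Y m) d = min ((d + 2).choose 2) (r * (m + 1).choose 2)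

theorem result (ε : ℝ) (hε : 0 < ε) :
    ∃ (N : ℕ) (c : ℝ), ∀ r : ℕ, N ≤ r → ¬ IsSquare r → ∀ M : ℕ, c * Real.sqrt r ≤ M →
      (M : ℝ) ≤ Real.exp (Real.log r ^ 2 / 64) →
      (Set.ncard {m : ℕ | 0 < m ∧ m < M ∧ ¬ AllDegrees r m} : ℝ) ≤ ε * M := by
  classical
  obtain ⟨η, hη⟩ : ∃ η, η = min (ε / 3) 1 := ⟨_, rfl⟩
  have hη0 : 0 < η := by
    rw [hη]
    exact lt_min (by positivity) one_pos
  have hη1 : η ≤ 1 := by rw [hη]; exact min_le_right _ _
  have hη3 : 3 * η ≤ ε := by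
    have : η ≤ ε / 3 := by rw [hη]; exact min_le_left _ _
    linarith
  obtain ⟨N, hN100, hN⟩ := Pool.Agent.H852.QP.near_uniformQ hη0
  obtain ⟨Q, hQ⟩ := exists_nat_ge (1 / η)
  refine ⟨N, 12 * (Q : ℝ) ^ 2, fun r hr hsq M hM hMX => ?_⟩
  have hr0 : 0 < r := by omega
  have hgood : ∀ m : ℕ, 0 < m → m < M → ¬ AllDegrees r m →
      ∃ d : ℕ, |2 * (d : ℝ) + 3 - Real.sqrt r - 2 * (Real.sqrt r * m)| < η := by
    intro m hm hmM hbad
    by_contra hcon
    push Not at hcon
    apply hbad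
    have hmX : (m : ℝ) ≤ Real.exp (Real.log r ^ 2 / 64) := by
      refine le_trans ?_ hMX
      exact_mod_cast hmM.le
    obtain ⟨F, hF, hF'⟩ := hN ℂ r hr m hm hmX (fun _ => m) (fun _ => Or.inl rfl)
    refine ⟨F.map (algebraMap ℚ ℂ), Pool.Agent.H932R3.map_ne_zero_of hF, fun Y hY d => ?_⟩
    rw [MvPolynomial.eval_map] at hY
    have h1 : Pool.Agent.H932R6.WinE r (∑ _a : Fin r, (((fun _ : Fin r => m) _a : ℕ) : ℝ)) η d := by
      have h2 := Pool.Agent.H932R6.WinE.uni (m := m) hr0 (hcon d)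
      have h3 : ∑ _a : Fin r, (((fun _ : Fin r => m) _a : ℕ) : ℝ) = r * m := by
        rw [Finset.sum_const, Finset.card_univ, Fintype.card_fin, nsmul_eq_mul]
      rw [h3]
      exact h2
    have h2 := hF' Y hY d h1
    unfold Pool.Agent.H932R3.ExpDim at h2
    rw [Finset.sum_const, Finset.card_univ, Fintype.card_fin, smul_eq_mul] at h2
    unfold hilb fat
    rw [h2, Pool.Agent.H852.QP.finrank_hom]
    omega
  have hset : {m : ℕ | 0 < m ∧ m < M ∧ ¬ AllDegrees r m} =
      ↑((Finset.range M).filter fun m => 0 < m ∧ ¬ AllDegrees r m) := by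
    ext m
    simp only [Set.mem_setOf_eq, Finset.coe_filter, Finset.mem_range]
    tauto
  rw [hset, Set.ncard_coe_finset]
  have hfin : (((Finset.range M).filter fun m => 0 < m ∧ ¬ AllDegrees r m).card : ℝ) ≤
      3 * η * M :=
    Pool.Agent.H852.NB.count_uniform hsq hη0 hη1 hQ (by linarith)
      (fun m hm => Finset.mem_range.1 (Finset.mem_filter.1 hm).1)
      (fun m hm => hgood m (Finset.mem_filter.1 hm).2.1
        (Finset.mem_range.1 (Finset.mem_filter.1 hm).1) (Finset.mem_filter.1 hm).2.2)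
  exact hfin.trans (mul_le_mul_of_nonneg_right hη3 (Nat.cast_nonneg M))

end Pool.Agent.Results.MP_8707bd_ag.MostMultiplicities
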